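import Pool.Agent.Helper28.Few.Defs

/-!
# Probabilistic acceptance with unbounded error on top of alternation: definition
-/

namespace Pool.Agent.Helper81.Gen4

open Pool.Agent.Helper28.Ram

/-- `Q m f` is the property `Q₁ x₁ … Q_m x_m : P (x₁ … x_m)` with alternating quantifiers over letters
(the first one is `∃`), where `P x` means that more than half of the words `u` of length `m` have the
property `Q₁ y₁ … Q_m y_m : f (x u y)`. This acceptance condition covers nondeterminism, alternation,
machines with `m` random letters and two-sided, even unbounded, error (as in the classes `BPP` and
`PP`), and combinations (as in the classes `MA` and `AM`); letters may be ignored. -/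
def Q (m : ℕ) (f : List Bool → Prop) : Prop :=
  Alt true m fun x => 2 ^ m < 2 * {u : List Bool | u.length = m ∧
    Alt true m fun y => f (x ++ (u ++ y))}.ncard

end Pool.Agent.Helper81.Gen4
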