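import Pool.Agent.Helper65.Gen3.Final
import Pool.Agent.Helper78.Gen2.Main
import Pool.Agent.Helper28.Few.Main
import Pool.Agent.Helper81.Gen4.Defs

/-!
# Probabilistic machines with unbounded error between two phases of alternation
-/

namespace Pool.Agent.Helper81.Gen4

open Pool.Agent.Helper65.LinSpace Pool.Agent.Helper78.Avg Pool.Agent.Helper78.Gen2 Finset
open Pool.Agent.Helper65.Gen3

/-- The property `Most` with another (equivalent) definition of alternation. -/
def MostG (m : ℕ) (f : List Bool → Prop) : Prop :=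
  2 ^ m < 2 * {u : List Bool | u.length = m ∧ Alt true m fun v => f (u ++ v)}.ncard

theorem finite_len (m : ℕ) : {u : List Bool | u.length = m}.Finite :=
  List.finite_length_eq Bool m

theorem MostG.mono {m : ℕ} {f g : List Bool → Prop} (h : ∀ y, f y → g y) : MostG m f → MostG m g := by
  intro hf
  unfold MostG at hf ⊢
  have h1 : {u : List Bool | u.length = m ∧ Alt true m fun v => f (u ++ v)} ⊆
      {u : List Bool | u.length = m ∧ Alt true m fun v => g (u ++ v)} := by
    rintro u ⟨hu, hu2⟩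
    exact ⟨hu, Alt.mono (fun v _ hv => h _ hv) hu2⟩
  have h2 := Set.ncard_le_ncard h1 ((finite_len m).subset fun u hu => hu.1)
  omega

theorem ncard_len (m : ℕ) : {u : List Bool | u.length = m}.ncard = 2 ^ m := by
  have := ncard_words m fun _ => True
  simpa using this

theorem card_len (m : ℕ) : (finite_len m).toFinset.card = 2 ^ m := by
  rw [← Set.ncard_eq_toFinset_card _ (finite_len m), ncard_len]

/-- Alternation is a special case. -/
theorem mostG_of_alt {m : ℕ} {f : List Bool → Prop} (h : ∀ u v : List Bool, u.length = m →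
    (f (u ++ v) ↔ f v)) : MostG m f ↔ Alt true m f := by
  have hcard := ncard_len m
  have hpos : 0 < 2 ^ m := by positivity
  have key : ∀ u : List Bool, u.length = m → ((Alt true m fun v => f (u ++ v)) ↔ Alt true m f) :=
    fun u hu => Alt.congr fun v _ => h u v hu
  unfold MostG
  by_cases h0 : Alt true m f
  · have h1 : {u : List Bool | u.length = m ∧ Alt true m fun v => f (u ++ v)} =
        {u : List Bool | u.length = m} := by
      ext u
      exact ⟨fun hu => hu.1, fun hu => ⟨hu, (key u hu).2 h0⟩⟩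
    rw [h1, hcard]
    exact ⟨fun _ => h0, fun _ => by omega⟩
  · have h1 : {u : List Bool | u.length = m ∧ Alt true m fun v => f (u ++ v)} = ∅ := by
      rw [Set.eq_empty_iff_forall_notMem]
      rintro u ⟨hu, hu2⟩
      exact h0 ((key u hu).1 hu2)
    rw [h1, Set.ncard_empty]
    exact ⟨fun h2 => absurd h2 (by omega), fun h2 => absurd h2 h0⟩

/-- The words of length `m` and the numbers smaller than `2 ^ m`. -/
theorem image_be (m : ℕ) : (finite_len m).toFinset.image be = range (2 ^ m) := by
  apply eq_of_subset_of_card_le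
  · intro t ht
    rw [mem_image] at ht
    obtain ⟨u, hu, rfl⟩ := ht
    have hu' : u.length = m := by simpa using hu
    rw [mem_range, ← hu']
    exact be_lt u
  · rw [card_range, card_image_of_injOn, card_len]
    intro u hu v hv huv
    have hu' : u.length = m := by simpa using hu
    have hv' : v.length = m := by simpa using hv
    apply Pool.Agent.Helper78.Avg.num_injective
    have huv' : be u = be v := huv
    rw [← leafW_be, ← leafW_be, hu', hv', huv']

theorem be_inj {m : ℕ} {u v : List Bool} (hu : u.length = m) (hv : v.length = m)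
    (h : be u = be v) : u = v := by
  apply Pool.Agent.Helper78.Avg.num_injective
  rw [← leafW_be, ← leafW_be, hu, hv, h]

variable {α : Type} [Ctx α]

/-- The value of the game, with advice. -/
noncomputable def UM (acc : ℕ → ℕ → ℕ → ℕ → ℕ) (N : ℕ → ℕ) (c e a x : ℕ) : ℕ :=
  lt01 (2 ^ (c * Nat.log 2 x)) (2 * ∑ t ∈ range (2 ^ (c * Nat.log 2 x)),
    lt01 0 (UA acc N c e (catN a (leafW (c * Nat.log 2 x) t)) x))

theorem LS.pow2 (c : ℕ) {x : α → ℕ} (hx : LS x) : LS (fun a => 2 ^ (c * Nat.log 2 (x a))) :=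
  LS.pow_of_le (f := fun _ => 2) (g := fun a => c * Nat.log 2 (x a))
      (C := fun a => (x a + 2) ^ (2 * (c + 1))) (by fun_prop) (by fun_prop) (by fun_prop)
      (fun a => (Nat.pow_le_pow_right (by norm_num) (Nat.le_succ _)).trans (two_pow_le c (x a)))

theorem LS.UM {acc : ℕ → ℕ → ℕ → ℕ → ℕ} {N : ℕ → ℕ}
    (hacc : LS (fun z : ℕ × ℕ × ℕ × ℕ => acc z.1 z.2.1 z.2.2.1 z.2.2.2)) (hN : LS N)
    (c : ℕ) {e b x : α → ℕ} (he : LS e) (hb : LS b) (hx : LS x) :
    LS (fun a => UM acc N c (e a) (b a) (x a)) := by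
  unfold Gen4.UM
  have hp := LS.pow2 c hx
  refine LS.lt01 hp (LS.mul (LS.const 2) ?_)
  refine LS.sum_le (N := fun a => 2 ^ (c * Nat.log 2 (x a))) (B := fun _ => 1)
    (f := fun a t => lt01 0 (UA acc N c (e a) (catN (b a) (leafW (c * Nat.log 2 (x a)) t)) (x a)))
    ?_ hp (LS.const 1) (fun a t _ => lt01_le_one _ _)
  have hleaf : LS (fun z : α × ℕ => leafW (c * Nat.log 2 (x z.1)) z.2) :=
    LS.leafW c (by fun_prop) (by fun_prop)
  exact LS.lt01 (LS.const 0) (LS.UA hacc hN c (e := fun z : α × ℕ => e z.1)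
    (b := fun z => catN (b z.1) (leafW (c * Nat.log 2 (x z.1)) z.2)) (x := fun z => x z.1)
    (by fun_prop) (by fun_prop) (by fun_prop))

theorem lt01_eq (x y : ℕ) : lt01 x y = if x < y then 1 else 0 := rfl

/-- The sum is the number of the words for which the value is not `0`. -/
theorem sum_words {m : ℕ} (g : ℕ → ℕ) :
    ∑ t ∈ range (2 ^ m), lt01 0 (g (leafW m t)) =
      {u : List Bool | u.length = m ∧ g (num u) ≠ 0}.ncard := by
  classical
  rw [← image_be m, sum_image]
  · have h1 : ∀ u ∈ (finite_len m).toFinset, lt01 0 (g (leafW m (be u))) =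
        if g (num u) ≠ 0 then 1 else 0 := by
      intro u hu
      have hu' : u.length = m := by simpa using hu
      rw [show leafW m (be u) = num u by rw [← hu', leafW_be], lt01_eq]
      by_cases h : g (num u) = 0
      · simp [h]
      · rw [if_pos (Nat.pos_of_ne_zero h), if_pos h]
    rw [sum_congr rfl h1, ← card_filter]
    rw [← Set.ncard_coe_finset]
    congr 1
    ext u
    simp
  · intro u hu v hv huv
    have hu' : u.length = m := by simpa using hu
    have hv' : v.length = m := by simpa using hv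
    exact be_inj hu' hv' huv

theorem UM_spec {acc : ℕ → ℕ → ℕ → ℕ → ℕ} {N : ℕ → ℕ} (c e : ℕ) {w a : List Bool}
    {Acc Good : List Bool → Prop}
    (h1 : ∀ (y : List Bool), ∀ S < N (num w), acc e (num w) (num (a ++ y)) S ≠ 0 → Acc y)
    (h2 : ∀ y : List Bool, Good y → ∃ S < N (num w), acc e (num w) (num (a ++ y)) S ≠ 0) :
    (UM acc N c e (num a) (num w) ≠ 0 → MostG (c * w.length) Acc) ∧
    (MostG (c * w.length) Good → UM acc N c e (num a) (num w) ≠ 0) := by
  have hlog : Nat.log 2 (num w) = w.length := Pool.Agent.Helper65.LinSpace.log_num w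
  have hspec : ∀ u : List Bool, (UA acc N c e (num (a ++ u)) (num w) ≠ 0 →
      Alt true (c * w.length) fun v => Acc (u ++ v)) ∧
      ((Alt true (c * w.length) fun v => Good (u ++ v)) →
        UA acc N c e (num (a ++ u)) (num w) ≠ 0) := by
    intro u
    refine UA_spec (acc := acc) (N := N) c e (w := w) (a := a ++ u)
      (Acc := fun v => Acc (u ++ v)) (Good := fun v => Good (u ++ v)) ?_ ?_
    · intro y S hS h
      rw [List.append_assoc] at h
      exact h1 (u ++ y) S hS h
    · intro y hy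
      rw [List.append_assoc]
      exact h2 (u ++ y) hy
  set m := c * w.length with hm
  have hval : UM acc N c e (num a) (num w) ≠ 0 ↔ 2 ^ m < 2 *
      {u : List Bool | u.length = m ∧ UA acc N c e (num (a ++ u)) (num w) ≠ 0}.ncard := by
    unfold UM
    rw [hlog, ← hm, sum_words (m := m) fun z => UA acc N c e (catN (num a) z) (num w), lt01_eq]
    have h3 : {u : List Bool | u.length = m ∧ UA acc N c e (catN (num a) (num u)) (num w) ≠ 0} =
        {u : List Bool | u.length = m ∧ UA acc N c e (num (a ++ u)) (num w) ≠ 0} := by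
      ext u
      show _ ∧ _ ↔ _ ∧ _
      rw [num_append]
    rw [h3]
    split_ifs with h
    · exact ⟨fun _ => h, fun _ => one_ne_zero⟩
    · exact ⟨fun h4 => absurd rfl h4, fun h4 => absurd h4 h⟩
  rw [hval]
  unfold MostG
  constructor
  · intro h
    refine h.trans_le (Nat.mul_le_mul_left 2 (Set.ncard_le_ncard ?_
      ((finite_len m).subset fun u hu => hu.1)))
    rintro u ⟨hu, hu2⟩
    exact ⟨hu, (hspec u).1 hu2⟩
  · intro h
    refine h.trans_le (Nat.mul_le_mul_left 2 (Set.ncard_le_ncard ?_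
      ((finite_len m).subset fun u hu => hu.1)))
    rintro u ⟨hu, hu2⟩
    exact ⟨hu, (hspec u).2 hu2⟩

/-! ### The theorem -/

theorem one_le_two_rpow {x : ℝ} (hx : 0 ≤ x) : (1 : ℝ) ≤ 2 ^ (x / 2) :=
  Real.one_le_rpow (by norm_num) (by positivity)

/-- The property `Q` with another (equivalent) definition of alternation. -/
def QG (m : ℕ) (f : List Bool → Prop) : Prop := Alt true m fun x => MostG m fun y => f (x ++ y)

theorem QG_iff (m : ℕ) (f : List Bool → Prop) : QG m f ↔ Q m f := by
  unfold QG Q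
  rw [Pool.Agent.Helper28.Few.alt_iff]
  have h : ∀ x : List Bool, (MostG m fun y => f (x ++ y)) ↔
      2 ^ m < 2 * {u : List Bool | u.length = m ∧
        Pool.Agent.Helper28.Ram.Alt true m fun y => f (x ++ (u ++ y))}.ncard := by
    intro x
    unfold MostG
    have h : ∀ u : List Bool, (Alt true m fun v => f (x ++ (u ++ v))) ↔
        Pool.Agent.Helper28.Ram.Alt true m fun v => f (x ++ (u ++ v)) := fun u =>
      Pool.Agent.Helper28.Few.alt_iff _ _ _
    simp only [h]
  simp only [h]

/-- The property `Q` is monotone; only words of length `3 m` matter. -/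
theorem Q_mono {m : ℕ} {f g : List Bool → Prop}
    (h : ∀ x u y : List Bool, x.length = m → u.length = m → y.length = m →
      f (x ++ (u ++ y)) → g (x ++ (u ++ y))) : Q m f → Q m g := by
  rw [← QG_iff, ← QG_iff]
  refine Alt.mono fun x hx hf => ?_
  unfold MostG at hf ⊢
  have h1 : {u : List Bool | u.length = m ∧ Alt true m fun v => f (x ++ (u ++ v))} ⊆
      {u : List Bool | u.length = m ∧ Alt true m fun v => g (x ++ (u ++ v))} := by
    rintro u ⟨hu, hu2⟩
    exact ⟨hu, Alt.mono (fun v hv hf => h x u v hx hu hv hf) hu2⟩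
  have h2 := Set.ncard_le_ncard h1 ((finite_len m).subset fun u hu => hu.1)
  exact hf.trans_le (Nat.mul_le_mul_left 2 h2)

theorem Q_congr {m : ℕ} {f g : List Bool → Prop}
    (h : ∀ x u y : List Bool, x.length = m → u.length = m → y.length = m →
      (f (x ++ (u ++ y)) ↔ g (x ++ (u ++ y)))) : Q m f ↔ Q m g :=
  ⟨Q_mono fun x u y h1 h2 h3 => (h x u y h1 h2 h3).1,
    Q_mono fun x u y h1 h2 h3 => (h x u y h1 h2 h3).2⟩

theorem alt_const (b : Bool) (m : ℕ) (p : Prop) : (Alt b m fun _ => p) ↔ p := by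
  induction m generalizing b with
  | zero => cases b <;> exact Iff.rfl
  | succ m ih =>
    cases b with
    | true =>
      show (∃ _ : Bool, Alt false m fun _ => p) ↔ p
      rw [ih]
      exact ⟨fun ⟨_, h⟩ => h, fun h => ⟨true, h⟩⟩
    | false =>
      show (∀ _ : Bool, Alt true m fun _ => p) ↔ p
      rw [ih]
      exact ⟨fun h => h true, fun h _ => h⟩

/-- `Q` of a constant property. -/
theorem Q_const (m : ℕ) (p : Prop) : (Q m fun _ => p) ↔ p := by
  rw [← QG_iff]
  show (Alt true m fun _ => MostG m fun _ => p) ↔ p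
  rw [alt_const, mostG_of_alt (f := fun _ => p) fun _ _ _ => Iff.rfl, alt_const]

/-- The value of the whole game, with advice. -/
noncomputable def UQ (acc : ℕ → ℕ → ℕ → ℕ → ℕ) (N : ℕ → ℕ) (c e a x : ℕ) : ℕ :=
  altN (c * Nat.log 2 x) fun t => UM acc N c e (catN a (leafW (c * Nat.log 2 x) t)) x

theorem LS.UQ {acc : ℕ → ℕ → ℕ → ℕ → ℕ} {N : ℕ → ℕ}
    (hacc : LS (fun z : ℕ × ℕ × ℕ × ℕ => acc z.1 z.2.1 z.2.2.1 z.2.2.2)) (hN : LS N)
    (c : ℕ) {e b x : α → ℕ} (he : LS e) (hb : LS b) (hx : LS x) :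
    LS (fun a => UQ acc N c (e a) (b a) (x a)) := by
  unfold Gen4.UQ
  refine LS.altN (N := fun a => c * Nat.log 2 (x a)) (C := fun a => (x a + 2) ^ (2 * (c + 1)))
    (F := fun a t => Gen4.UM acc N c (e a) (catN (b a) (leafW (c * Nat.log 2 (x a)) t)) (x a))
    (by fun_prop) (by fun_prop) ?_ (fun a => two_pow_le c (x a))
  have hleaf : LS (fun z : α × ℕ => leafW (c * Nat.log 2 (x z.1)) z.2) :=
    LS.leafW c (by fun_prop) (by fun_prop)
  exact LS.UM hacc hN c (e := fun z : α × ℕ => e z.1)
    (b := fun z => catN (b z.1) (leafW (c * Nat.log 2 (x z.1)) z.2)) (x := fun z => x z.1)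
    (by fun_prop) (by fun_prop) (by fun_prop)

theorem UQ_spec {acc : ℕ → ℕ → ℕ → ℕ → ℕ} {N : ℕ → ℕ} (c e : ℕ) {w a : List Bool}
    {Acc Good : List Bool → Prop}
    (h1 : ∀ (y : List Bool), ∀ S < N (num w), acc e (num w) (num (a ++ y)) S ≠ 0 → Acc y)
    (h2 : ∀ y : List Bool, Good y → ∃ S < N (num w), acc e (num w) (num (a ++ y)) S ≠ 0) :
    (UQ acc N c e (num a) (num w) ≠ 0 → Q (c * w.length) Acc) ∧
    (Q (c * w.length) Good → UQ acc N c e (num a) (num w) ≠ 0) := by
  have hlog : Nat.log 2 (num w) = w.length := Pool.Agent.Helper65.LinSpace.log_num w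
  rw [← QG_iff, ← QG_iff]
  unfold UQ QG
  rw [hlog, altN_iff]
  have hspec : ∀ u : List Bool, (UM acc N c e (num (a ++ u)) (num w) ≠ 0 →
      MostG (c * w.length) fun v => Acc (u ++ v)) ∧
      ((MostG (c * w.length) fun v => Good (u ++ v)) →
        UM acc N c e (num (a ++ u)) (num w) ≠ 0) := by
    intro u
    refine UM_spec (acc := acc) (N := N) c e (w := w) (a := a ++ u)
      (Acc := fun v => Acc (u ++ v)) (Good := fun v => Good (u ++ v)) ?_ ?_
    · intro y S hS h
      rw [List.append_assoc] at h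
      exact h1 (u ++ y) S hS h
    · intro y hy
      rw [List.append_assoc]
      exact h2 (u ++ y) hy
  have key : ∀ y : List Bool, y.length = c * w.length →
      UM acc N c e (catN (num a) (leafW (c * w.length) (be y))) (num w) =
        UM acc N c e (num (a ++ y)) (num w) := by
    intro y hy
    rw [← hy, leafW_be, ← num_append]
  constructor
  · refine Alt.mono fun y hy h => ?_
    rw [key y hy] at h
    exact (hspec y).1 h
  · refine Alt.mono fun y hy h => ?_
    rw [key y hy]
    exact (hspec y).2 h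

/-- **Average-case hardness with advice, for every model.** There is one language such that for all
machines, given by the predicates `Acc w y` (the machine accepts `w` with the additional word `y`) and
`Good w y` (it does so within the bounds), which have a code `e` (for long words), the machine, used
with the acceptance condition `Q (c n)` for the last letters of `y`, is correct on at most about
half of the words of length `n`, even with almost `k n` bits of advice. -/
theorem q_main' (h : HARD_stmt) (acc : ℕ → ℕ → ℕ → ℕ → ℕ) (N : ℕ → ℕ)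
    (hacc : LS (fun z : ℕ × ℕ × ℕ × ℕ => acc z.1 z.2.1 z.2.2.1 z.2.2.2)) (hN : LS N) (c k : ℕ)
    (hk : 0 < k) :
    ∃ L : Set (List Bool), DLINSPACE L ∧
      ∀ (Acc Good : List Bool → List Bool → Prop),
        (∃ e n₀ : ℕ, ∀ w y : List Bool, n₀ ≤ w.length →
          (∀ S < N (num w), acc e (num w) (num y) S ≠ 0 → Acc w y) ∧
          (Good w y → ∃ S < N (num w), acc e (num w) (num y) S ≠ 0)) →
        ∃ c' : ℝ, ∀ (n : ℕ) (α : List Bool), ∀ M, M = L ∨ M = Lᶜ →
          ({w : List Bool | w.length = n ∧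
            (Q (c * n) (fun v => Acc w (α ++ v)) → w ∈ M) ∧
            (w ∈ M → Q (c * n) fun v => Good w (α ++ v))}.ncard : ℝ) ≤
          2 ^ n / 2 + c' * ((α.length : ℝ) + 1) * 2 ^ (((n : ℝ) + α.length / k) / 2) := by
  obtain ⟨L, h1, h4⟩ := h (UQ acc N c) k hk
    (LS.app3 fun he ha hx => LS.UQ hacc hN c he ha hx)
  refine ⟨L, h1, fun Acc Good ⟨e, n₀, he⟩ => ?_⟩
  refine ⟨(2 * k) ^ 2 * 2 ^ (e + 2) * 2 ^ n₀, fun n α M hM => ?_⟩
  have hk1 : (1 : ℝ) ≤ (2 * k) ^ 2 := by
    have hk2 : (1 : ℝ) ≤ k := by exact_mod_cast hk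
    nlinarith
  have hn0 : (0 : ℝ) ≤ n := Nat.cast_nonneg n
  have hm0 : (0 : ℝ) ≤ α.length := Nat.cast_nonneg _
  have hk0 : (0 : ℝ) ≤ k := Nat.cast_nonneg _
  have hP : (1 : ℝ) ≤ 2 ^ (((n : ℝ) + α.length / k) / 2) := one_le_two_rpow (by positivity)
  have hE : (1 : ℝ) ≤ 2 ^ (e + 2) := one_le_pow₀ (by norm_num)
  have hN0 : (1 : ℝ) ≤ 2 ^ n₀ := one_le_pow₀ (by norm_num)
  set P : ℝ := 2 ^ (((n : ℝ) + α.length / k) / 2) with hPdef
  set A : ℝ := (2 * k) ^ 2 * 2 ^ (e + 2) with hA
  have hA1 : 1 ≤ A := by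
    rw [hA]
    nlinarith
  rcases Nat.lt_or_ge n n₀ with hn | hn
  · have h2 : ({w : List Bool | w.length = n ∧
            (Q (c * n) (fun v => Acc w (α ++ v)) → w ∈ M) ∧
            (w ∈ M → Q (c * n) fun v => Good w (α ++ v))}.ncard : ℝ) ≤ 2 ^ n :=
      ncard_le_pow (fun w hw => hw.1)
    have h3 : (2 : ℝ) ^ n ≤ 2 ^ n₀ := pow_le_pow_right₀ (by norm_num) hn.le
    have h5 : (0 : ℝ) ≤ 2 ^ n := by positivity
    have h6 : (2 : ℝ) ^ n₀ ≤ A * 2 ^ n₀ := le_mul_of_one_le_left (by positivity) hA1
    have h7 : A * 2 ^ n₀ * 1 * 1 ≤ A * 2 ^ n₀ * ((α.length : ℝ) + 1) * P := by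
      refine mul_le_mul (mul_le_mul_of_nonneg_left (by linarith) (by positivity)) hP
        (by norm_num) (by positivity)
    linarith
  · have key : {w : List Bool | w.length = n ∧
            (Q (c * n) (fun v => Acc w (α ++ v)) → w ∈ M) ∧
            (w ∈ M → Q (c * n) fun v => Good w (α ++ v))} ⊆
        {w : List Bool | w.length = n ∧ (UQ acc N c e (num α) (num w) ≠ 0 ↔ w ∈ M)} := by
      rintro w ⟨hw, hw1, hw2⟩
      obtain ⟨hs, hc⟩ := UQ_spec (acc := acc) (N := N) c e (w := w) (a := α)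
        (Acc := fun v => Acc w (α ++ v)) (Good := fun v => Good w (α ++ v))
        (fun y S hS h => (he w (α ++ y) (by omega)).1 S hS h)
        (fun y hy => (he w (α ++ y) (by omega)).2 hy)
      subst hw
      exact ⟨rfl, fun h => hw1 (hs h), fun h => hc (hw2 h)⟩
    have h8 : ({w : List Bool | w.length = n ∧
            (Q (c * n) (fun v => Acc w (α ++ v)) → w ∈ M) ∧
            (w ∈ M → Q (c * n) fun v => Good w (α ++ v))}.ncard : ℝ) ≤
          2 ^ n / 2 + A * ((α.length : ℝ) + 1) * P := by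
      refine ncard_le key (fun w hw => hw.1) ?_
      rcases hM with rfl | rfl
      · exact (h4 e n α).1
      · exact (h4 e n α).2
    refine h8.trans ?_
    have h9 : A * ((α.length : ℝ) + 1) * P ≤ A * 2 ^ n₀ * ((α.length : ℝ) + 1) * P := by
      refine mul_le_mul_of_nonneg_right (mul_le_mul_of_nonneg_right ?_ (by positivity))
        (by positivity)
      exact le_mul_of_one_le_right (by positivity) hN0
    linarith

/-- **Average-case hardness with advice, for every model.** -/
theorem q_main (acc : ℕ → ℕ → ℕ → ℕ → ℕ) (N : ℕ → ℕ)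
    (hacc : LS (fun z : ℕ × ℕ × ℕ × ℕ => acc z.1 z.2.1 z.2.2.1 z.2.2.2)) (hN : LS N) (c k : ℕ)
    (hk : 0 < k) :
    ∃ L : Set (List Bool), DLINSPACE L ∧
      ∀ (Acc Good : List Bool → List Bool → Prop),
        (∃ e n₀ : ℕ, ∀ w y : List Bool, n₀ ≤ w.length →
          (∀ S < N (num w), acc e (num w) (num y) S ≠ 0 → Acc w y) ∧
          (Good w y → ∃ S < N (num w), acc e (num w) (num y) S ≠ 0)) →
        ∃ c' : ℝ, ∀ (n : ℕ) (α : List Bool), ∀ M, M = L ∨ M = Lᶜ →
          ({w : List Bool | w.length = n ∧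
            (Q (c * n) (fun v => Acc w (α ++ v)) → w ∈ M) ∧
            (w ∈ M → Q (c * n) fun v => Good w (α ++ v))}.ncard : ℝ) ≤
          2 ^ n / 2 + c' * ((α.length : ℝ) + 1) * 2 ^ (((n : ℝ) + α.length / k) / 2) :=
  q_main' (Pool.Agent.Helper30.Gen3.hard
    (Pool.Agent.Helper86.Gen3.good (mom Pool.Agent.Helper19.Gen3.ind))
    Pool.Agent.Helper59.Gen3.lsh) acc N hacc hN c k hk

/-- Languages which are accepted in a model with the acceptance condition `Q` are in linear
space. -/
theorem q_lin (acc : ℕ → ℕ → ℕ → ℕ → ℕ) (N : ℕ → ℕ)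
    (hacc : LS (fun z : ℕ × ℕ × ℕ × ℕ => acc z.1 z.2.1 z.2.2.1 z.2.2.2)) (hN : LS N) (c : ℕ)
    (L : Set (List Bool)) (Acc Good : List Bool → List Bool → Prop)
    (hc : ∃ e n₀ : ℕ, ∀ w y : List Bool, n₀ ≤ w.length →
      (∀ S < N (num w), acc e (num w) (num y) S ≠ 0 → Acc w y) ∧
      (Good w y → ∃ S < N (num w), acc e (num w) (num y) S ≠ 0))
    (h1 : ∀ w, Q (c * w.length) (Acc w) → w ∈ L)
    (h2 : ∀ w ∈ L, Q (c * w.length) (Good w)) : DLINSPACE L := by
  classical
  obtain ⟨e, n₀, he⟩ := hc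
  have hrun : ∀ w : List Bool, n₀ ≤ w.length → (w ∈ L ↔ UQ acc N c e (num []) (num w) ≠ 0) := by
    intro w hw
    obtain ⟨hs, hc⟩ := UQ_spec (acc := acc) (N := N) c e (w := w) (a := [])
        (Acc := fun v => Acc w v) (Good := fun v => Good w v)
        (fun y S hS h => (he w y hw).1 S hS h)
        (fun y hy => (he w y hw).2 hy)
    exact ⟨fun hwL => hc (h2 w hwL), fun h => h1 w (hs h)⟩
  let B : ℕ := tab 2 (2 ^ (n₀ + 1)) fun x => if ∃ w ∈ L, num w = x then 1 else 0
  refine LS.dlinspace (F := fun x => ifz (le01 n₀ (Nat.log 2 x)) (dig 2 B x)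
    (UQ acc N c e (num []) x)) ?_ L ?_
  · exact LS.ifz (by fun_prop) (by fun_prop) (LS.UQ hacc hN c (LS.const e) (LS.const _) LS.id)
  · intro w
    by_cases h : n₀ ≤ w.length
    · have h1 : le01 n₀ (Nat.log 2 (num w)) = 1 := by
        rw [Pool.Agent.Helper65.LinSpace.log_num, le01, if_pos h]
      simp only [h1]
      rw [ifz_ne one_ne_zero]
      exact hrun w h
    · have h1 : le01 n₀ (Nat.log 2 (num w)) = 0 := by
        rw [Pool.Agent.Helper65.LinSpace.log_num, le01, if_neg h]
      simp only [h1]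
      rw [ifz_zero]
      have h2 : num w < 2 ^ (n₀ + 1) := by
        have h3 := Nat.lt_pow_succ_log_self (b := 2) (by norm_num) (num w)
        rw [Pool.Agent.Helper65.LinSpace.log_num] at h3
        exact lt_of_lt_of_le h3 (Nat.pow_le_pow_right (by norm_num) (by omega))
      have h3 : dig 2 B (num w) = if ∃ w' ∈ L, num w' = num w then 1 else 0 := by
        refine dig_tab ?_ h2
        intro i _
        split_ifs <;> norm_num
      rw [h3]
      constructor
      · intro hw
        rw [if_pos ⟨w, hw, rfl⟩]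
        exact one_ne_zero
      · intro h4
        by_contra hw
        apply h4
        rw [if_neg]
        rintro ⟨w', hw', h5⟩
        rw [Pool.Agent.Helper78.Avg.num_injective h5] at hw'
        exact hw hw'

end Pool.Agent.Helper81.Gen4
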